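import Pool.Agent.MHP.StmtsT

set_option autoImplicit false

open scoped Classical

namespace Pool.Agent.MHP.H19

open Pool.Agent.MHP Pool.Agent.HMT

theorem blk_eq {V W : Type} (X : SimpleGraph W) (x : W) (r : V)
    (π : Setoid (W ⊕ {v : V // v ≠ r})) (a b : V) (hab : ¬ π.r (emb r x a) (emb r x b))
    (t : Finset (Sym2 V)) (p : W ⊕ {v : V // v ≠ r}) :
    (glue X x (SimpleGraph.fromEdgeSet ((insert s(a, b) t : Finset (Sym2 V)) : Set (Sym2 V))) r).induce
      {q | π.r q p} =
    (glue X x (SimpleGraph.fromEdgeSet (t : Set (Sym2 V))) r).induce {q | π.r q p} := by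
  ext u v
  simp only [SimpleGraph.comap_adj, Function.Embedding.subtype_apply]
  rw [glue_adj_iff, glue_adj_iff]
  constructor
  · rintro (h | ⟨c, d, hc, hd, h⟩)
    · exact Or.inl h
    · refine Or.inr ⟨c, d, hc, hd, ?_⟩
      rw [SimpleGraph.fromEdgeSet_adj] at h ⊢
      rw [Finset.coe_insert, Set.mem_insert_iff] at h
      rcases h with ⟨h1 | h1, h2⟩
      · exfalso
        have hu : π.r u.1 p := u.2
        have hv : π.r v.1 p := v.2
        apply hab
        rcases Sym2.eq_iff.mp h1 with ⟨h3, h4⟩ | ⟨h3, h4⟩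
        · rw [← h3, ← h4, ← hc, ← hd]
          exact π.trans' hu (π.symm' hv)
        · rw [← h3, ← h4, ← hc, ← hd]
          exact π.trans' hv (π.symm' hu)
      · exact ⟨h1, h2⟩
  · rintro (h | ⟨c, d, hc, hd, h⟩)
    · exact Or.inl h
    · refine Or.inr ⟨c, d, hc, hd, ?_⟩
      rw [SimpleGraph.fromEdgeSet_adj] at h ⊢
      rw [Finset.coe_insert, Set.mem_insert_iff]
      exact ⟨Or.inr h.1, h.2⟩

theorem cut : CutStmt := by
  intro P V W _ _ X x C r π a b hab hn
  unfold tog
  have he : s(a, b) ∈ (Set.toFinite C.edgeSet).toFinset := by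
    rw [Set.Finite.mem_toFinset]
    exact hab
  rw [← Finset.insert_erase he, Finset.sum_powerset_insert (Finset.notMem_erase _ _),
    ← Finset.sum_add_distrib]
  refine Finset.sum_eq_zero fun t ht => ?_
  have hnt : s(a, b) ∉ t := fun h =>
    Finset.notMem_erase _ _ (Finset.mem_powerset.mp ht h)
  rw [Finset.card_insert_of_notMem hnt, pow_succ]
  have h1 : (∀ p, P.mem ((glue X x (SimpleGraph.fromEdgeSet
      ((insert s(a, b) t : Finset (Sym2 V)) : Set (Sym2 V))) r).induce {q | π.r q p})) ↔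
      ∀ p, P.mem ((glue X x (SimpleGraph.fromEdgeSet (t : Set (Sym2 V))) r).induce
        {q | π.r q p}) := by
    refine forall_congr' fun p => ?_
    rw [blk_eq X x r π a b hn t p]
  simp only [h1]
  rw [← add_smul]
  simp

end Pool.Agent.MHP.H19
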