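import Pool.Agent.MHP.StmtsS

set_option autoImplicit false

open scoped Classical

namespace Pool.Agent.MHP.H19

open Pool.Agent.MHP Pool.Agent.HMT

theorem spr (spa : SpaStmt) (spb : SpbStmt) : SprStmt := by
  intro J _ T B g GG U _ ρ H hg hr h
  rcases h with h | ⟨h1, h2⟩
  · exact Or.inl h
  · exact Or.inr ⟨spa J T B GG U ρ H hr h1, spb J T B g GG U ρ H hg hr h2⟩

end Pool.Agent.MHP.H19
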